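import Pool.Agent.Run7.h252.KL
import Pool.Agent.H938R2.JC.Line

/-!
# Keller maps of the plane which agree on the coordinate cross

If one of two Keller maps which agree on the coordinate cross has a polynomial inverse then the two
maps are equal: if `A` is the inverse of `F` then `A ∘ G` is the identity on the cross, hence has a
polynomial inverse (`Pool.Agent.H938R2.JC.line`), hence its components are irreducible; the first is
divisible by `x`, the second by `y`.
-/

set_option autoImplicit false

open MvPolynomial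

namespace Run7.h252.CR

open Run7.h252.KL

theorem eval_aeval (v : Fin 2 → ℂ) (q : Fin 2 → P2) (f : P2) :
    eval v (aeval q f) = eval (fun i => eval v (q i)) f := by
  have h : (aeval v : P2 →ₐ[ℂ] ℂ).comp (aeval q : P2 →ₐ[ℂ] P2) =
      aeval (fun i => eval v (q i)) := by
    apply MvPolynomial.algHom_ext
    intro j
    simp [MvPolynomial.aeval_eq_eval]
  have h2 := congrArg (fun g => g f) h
  simpa [MvPolynomial.aeval_eq_eval] using h2

/-- a left inverse of a Keller map is a two-sided inverse -/
theorem two_sided {F A : Fin 2 → P2} (hF : Keller F) (hA : ∀ i, aeval F (A i) = X i) :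
    ∀ i, aeval A (F i) = X i := by
  intro i
  apply Pool.Agent.H922R2.aeval_injective F hF.unit
  have h1 : (aeval F : P2 →ₐ[ℂ] P2).comp (aeval A) = AlgHom.id ℂ P2 := by
    apply MvPolynomial.algHom_ext
    intro j
    rw [AlgHom.comp_apply, aeval_X, hA]
    rfl
  have h2 := congrArg (fun g => g (F i)) h1
  rw [aeval_X]
  exact h2

theorem unit_right {p q : Fin 2 → P2} (h : ∀ i, aeval q (p i) = X i) :
    IsUnit (Matrix.of fun i j => pderiv j (q i)).det := by
  have h1 : (Matrix.of fun i j => pderiv j (comp p q i)) =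
      (aeval q : P2 →ₐ[ℂ] P2).toRingHom.mapMatrix (Matrix.of fun i j => pderiv j (p i)) *
      (Matrix.of fun i j => pderiv j (q i)) := by
    ext i j
    rw [Matrix.of_apply, Matrix.mul_apply, comp, Pool.Agent.H922R2.deriv_aeval]
    rfl
  have h2 : (Matrix.of fun i j => pderiv j (comp p q i)) = (1 : Matrix (Fin 2) (Fin 2) P2) := by
    ext1 i j
    rw [Matrix.of_apply, comp, h, pderiv_X, Matrix.one_apply]
    by_cases hij : i = j
    · subst hij
      simp
    · rw [if_neg hij, Pi.single_apply, if_neg hij]
  rw [h2] at h1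
  have h3 := congrArg Matrix.det h1
  rw [Matrix.det_one, Matrix.det_mul] at h3
  exact isUnit_of_mul_isUnit_right (h3 ▸ isUnit_one)

/-- a polynomial which vanishes on a coordinate axis is divisible by the coordinate -/
theorem dvd_of (i : Fin 2) {p : P2} (h : ∀ v : Fin 2 → ℂ, v i = 0 → eval v p = 0) : X i ∣ p := by
  have h1 : aeval (Function.update X i 0 : Fin 2 → P2) p = 0 := by
    apply MvPolynomial.funext
    intro v
    rw [eval_aeval, h _ (by simp), map_zero]
  have h2 : (Ideal.Quotient.mkₐ ℂ (Ideal.span {(X i : P2)})).comp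
      (aeval (Function.update X i 0 : Fin 2 → P2)) =
      Ideal.Quotient.mkₐ ℂ (Ideal.span {(X i : P2)}) := by
    apply MvPolynomial.algHom_ext
    intro j
    rw [AlgHom.comp_apply, aeval_X]
    by_cases hj : j = i
    · subst hj
      rw [Function.update_self, map_zero]
      exact (Ideal.Quotient.eq_zero_iff_mem.2 (Ideal.mem_span_singleton_self _)).symm
    · rw [Function.update_of_ne hj]
  have h3 := congrArg (fun g => g p) h2
  simp only [AlgHom.comp_apply, h1, map_zero] at h3
  exact Ideal.mem_span_singleton.1 (Ideal.Quotient.eq_zero_iff_mem.1 h3.symm)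

theorem inverse_of_good {T : Fin 2 → P2} (hg : Pool.Agent.H938R2.JC.Good (T 0) (T 1)) :
    ∃ A : Fin 2 → P2, ∀ i, aeval T (A i) = X i := by
  have h2 : ∀ i, ∃ g : P2, aeval T g = X i := by
    intro i
    have h3 : (X i : P2) ∈ Algebra.adjoin ℂ {T 0, T 1} := by
      rw [show Algebra.adjoin ℂ {T 0, T 1} = ⊤ from hg]
      trivial
    have h4 : ({T 0, T 1} : Set P2) = Set.range T := by
      ext x
      simp only [Set.mem_insert_iff, Set.mem_singleton_iff, Set.mem_range, Fin.exists_fin_two]
      rw [eq_comm (a := x), eq_comm (a := x)]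
    rw [h4, Algebra.adjoin_range_eq_range_aeval] at h3
    exact h3
  choose g hg' using h2
  exact ⟨g, hg'⟩

/-- a Keller map which is the identity on the coordinate cross is the identity -/
theorem id_of_cross {T : Fin 2 → P2} (hT : Keller T)
    (hZ : ∀ v : Fin 2 → ℂ, v 0 * v 1 = 0 → ∀ i, eval v (T i) = v i) : ∀ i, T i = X i := by
  obtain ⟨c, hc, hJ⟩ := hT
  have hg : Pool.Agent.H938R2.JC.Good (T 0) (T 1) := by
    apply Pool.Agent.H938R2.JC.line (c := c) ?_ hc
    · intro i hi
      have h1 : Pool.Agent.H938R2.JC.ev (T 0) = Polynomial.X := by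
        apply Polynomial.funext
        intro t
        have h2 := hZ ![t, 0] (by simp) 0
        have h3 : Polynomial.eval t (Pool.Agent.H938R2.JC.ev (T 0)) = eval ![t, 0] (T 0) := by
          have h4 : (Polynomial.aeval t : Polynomial ℂ →ₐ[ℂ] ℂ).comp
              (aeval ![Polynomial.X, 0] : P2 →ₐ[ℂ] Polynomial ℂ) = aeval ![t, 0] := by
            apply MvPolynomial.algHom_ext
            intro j
            fin_cases j <;> simp
          have h5 := congrArg (fun g => g (T 0)) h4
          simpa [MvPolynomial.aeval_eq_eval, Pool.Agent.H938R2.JC.ev] using h5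
        rw [h3, h2, Polynomial.eval_X]
        rfl
      rw [← Pool.Agent.H938R2.JC.ev_coeff, h1, Polynomial.coeff_X, if_neg (by omega)]
    · unfold Pool.Agent.H938R2.JC.J
      rw [← hJ]
  obtain ⟨A, hA⟩ := inverse_of_good hg
  have hA' := two_sided ⟨c, hc, hJ⟩ hA
  have key : ∀ p : P2, aeval T (aeval A p) = p := by
    intro p
    have h1 : (aeval T : P2 →ₐ[ℂ] P2).comp (aeval A) = AlgHom.id ℂ P2 := by
      apply MvPolynomial.algHom_ext
      intro j
      rw [AlgHom.comp_apply, aeval_X, hA]
      rfl
    exact congrArg (fun g => g p) h1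
  intro i
  obtain ⟨u, hu⟩ := dvd_of i (p := T i) (fun v hv => by
    rw [hZ v (by fin_cases i <;> simp_all) i, hv])
  have h1 : (X i : P2) = A i * aeval A u := by
    rw [← hA' i, hu, map_mul, aeval_X]
  have hirr : Irreducible (X i : P2) := (MvPolynomial.X_prime (R := ℂ) (i := i)).irreducible
  have hunit : IsUnit u := by
    rcases hirr.isUnit_or_isUnit h1 with h2 | h2
    · exfalso
      apply hirr.not_isUnit
      have h3 := h2.map (aeval T : P2 →ₐ[ℂ] P2)
      rwa [hA] at h3
    · have h3 := h2.map (aeval T : P2 →ₐ[ℂ] P2)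
      rwa [key] at h3
  obtain ⟨d, hd, hde⟩ := MvPolynomial.isUnit_iff_eq_C_of_isReduced.1 hunit
  have h4 := hZ (Pi.single i 1) (by fin_cases i <;> simp) i
  rw [hu, hde, map_mul, eval_X, eval_C, Pi.single_eq_same, one_mul] at h4
  rw [hu, hde, h4, map_one, mul_one]

/-- **Two Keller maps which agree on the coordinate cross are equal if one of them is invertible.** -/
theorem eq_of_inv {F G : Fin 2 → P2} (hF : Keller F) (hG : Keller G)
    (hZ : ∀ v : Fin 2 → ℂ, v 0 * v 1 = 0 → ∀ i, eval v (F i) = eval v (G i))
    (h : ∃ A : Fin 2 → P2, ∀ i, aeval F (A i) = X i) : F = G := by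
  obtain ⟨A, hA⟩ := h
  have hA' := two_sided hF hA
  have hAK : Keller A := Keller.of_unit (unit_right hA')
  have h1 := id_of_cross (hAK.comp hG) (fun v hv i => by
    have h2 : (fun j => eval v (G j)) = fun j => eval v (F j) := by
      funext j
      rw [hZ v hv j]
    rw [KL.comp, eval_aeval, h2, ← eval_aeval, hA, eval_X])
  funext i
  have h3 : aeval G (aeval A (F i)) = F i := by
    have h4 : (aeval G : P2 →ₐ[ℂ] P2).comp (aeval A) = AlgHom.id ℂ P2 := by
      apply MvPolynomial.algHom_ext
      intro j
      rw [AlgHom.comp_apply, aeval_X]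
      exact h1 j
    exact congrArg (fun g => g (F i)) h4
  rw [← h3, hA', aeval_X]

end Run7.h252.CR
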