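import Pool.Agent.R470.Keller.Tz
import Pool.Agent.H928R2.FolMain

/-!
# Composites of plane Keller maps with a trapezoidal pair

If a composite `L ∘ (F, G) ∘ H` of polynomial maps of the plane with nonzero constant Jacobian
determinants has a polynomial inverse then so has `(F, G)`; for the pairs of the trapezoid conjecture
(conditions 1, 4 and 5) with nonzero bracket this is impossible.
-/

set_option autoImplicit false

open MvPolynomial

namespace Run7.h252.KL

/-- Polynomials in two variables with complex coefficients. -/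
abbrev P2 : Type := MvPolynomial (Fin 2) ℂ

/-- The polynomial map `p ∘ q` of the plane (first `q`, then `p`). -/
noncomputable def comp (p q : Fin 2 → P2) : Fin 2 → P2 := fun i => aeval q (p i)

/-- The Jacobian determinant of the polynomial map `p` is a nonzero constant. -/
def Keller (p : Fin 2 → P2) : Prop :=
  ∃ c : ℂ, c ≠ 0 ∧ pderiv 0 (p 0) * pderiv 1 (p 1) - pderiv 1 (p 0) * pderiv 0 (p 1) = C c

theorem aeval_comp (p q : Fin 2 → P2) (f : P2) : aeval (comp p q) f = aeval q (aeval p f) := by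
  have h1 : (aeval (comp p q) : P2 →ₐ[ℂ] P2) = (aeval q : P2 →ₐ[ℂ] P2).comp (aeval p) := by
    apply MvPolynomial.algHom_ext
    intro j
    rw [AlgHom.comp_apply, aeval_X, aeval_X]
    rfl
  exact congrArg (fun g => g f) h1

theorem Keller.unit {p : Fin 2 → P2} (h : Keller p) :
    IsUnit (Matrix.of fun i j => pderiv j (p i)).det := by
  obtain ⟨c, hc, h⟩ := h
  exact Pool.Agent.R470.Keller.det_unit p hc h

theorem Keller.of_unit {p : Fin 2 → P2} (h : IsUnit (Matrix.of fun i j => pderiv j (p i)).det) :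
    Keller p := by
  obtain ⟨c, hc, hce⟩ := MvPolynomial.isUnit_iff_eq_C_of_isReduced.1 h
  refine ⟨c, hc.ne_zero, ?_⟩
  rw [← hce, Matrix.det_fin_two]
  simp only [Matrix.of_apply]

theorem unit_comp {p q : Fin 2 → P2} (hp : IsUnit (Matrix.of fun i j => pderiv j (p i)).det)
    (hq : IsUnit (Matrix.of fun i j => pderiv j (q i)).det) :
    IsUnit (Matrix.of fun i j => pderiv j (comp p q i)).det := by
  have h1 : (Matrix.of fun i j => pderiv j (comp p q i)) =
      (aeval q : P2 →ₐ[ℂ] P2).toRingHom.mapMatrix (Matrix.of fun i j => pderiv j (p i)) *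
      (Matrix.of fun i j => pderiv j (q i)) := by
    ext i j
    rw [Matrix.of_apply, Matrix.mul_apply, comp, Pool.Agent.H922R2.deriv_aeval]
    rfl
  rw [h1, Matrix.det_mul, ← RingHom.map_det]
  exact (hp.map _).mul hq

theorem Keller.comp {p q : Fin 2 → P2} (hp : Keller p) (hq : Keller q) : Keller (comp p q) :=
  Keller.of_unit (unit_comp hp.unit hq.unit)

/-- a factor of an invertible composite of Keller maps is invertible -/
theorem inner {L T H : Fin 2 → P2} (hH : Keller H)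
    (h : ∃ G : Fin 2 → P2, ∀ i, aeval (KL.comp L (KL.comp T H)) (G i) = X i) :
    ∃ G : Fin 2 → P2, ∀ i, aeval T (G i) = X i := by
  obtain ⟨G, hG⟩ := h
  have hinj := Pool.Agent.H922R2.aeval_injective H hH.unit
  have h1 : ∀ i, aeval H (aeval T (aeval L (G i))) = X i := by
    intro i
    rw [← hG i, aeval_comp, aeval_comp]
  refine ⟨fun i => aeval L (aeval G (H i)), fun i => ?_⟩
  apply hinj
  have h2 : ∀ p : P2, aeval H (aeval T (aeval L (aeval G p))) = p := by
    intro p
    have h3 : (((aeval H : P2 →ₐ[ℂ] P2).comp (aeval T)).comp (aeval L)).comp (aeval G) =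
        AlgHom.id ℂ P2 := by
      apply MvPolynomial.algHom_ext
      intro j
      simp only [AlgHom.comp_apply, aeval_X]
      rw [h1]
      rfl
    exact congrArg (fun g => g p) h3
  rw [h2, aeval_X]

/-- no composite of a trapezoidal pair with nonzero bracket with Keller maps is invertible -/
theorem tz (a b m n : ℕ) (hm : 0 < m) (hn : 0 < n) (ham : a ∣ m) (han : a ∣ n)
    (hab : Nat.gcd a b = 1) (ha : 2 ≤ a) (hb : 2 ≤ b)
    (F G : MvPolynomial (Fin 2) ℂ)
    (h1 : convexHull ℝ (insert ((0:ℝ), (0:ℝ))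
        ((fun d : Fin 2 →₀ ℕ => ((d 0 : ℝ), (d 1 : ℝ))) '' (↑F.support : Set (Fin 2 →₀ ℕ))))
        = {p : ℝ × ℝ | 0 ≤ p.2 ∧ p.2 ≤ (n : ℝ) ∧ 0 ≤ p.1 ∧ p.1 ≤ (m : ℝ) + (n : ℝ) - p.2})
    (h4 : convexHull ℝ (insert ((0:ℝ), (0:ℝ))
        ((fun d : Fin 2 →₀ ℕ => ((d 0 : ℝ), (d 1 : ℝ))) '' (↑G.support : Set (Fin 2 →₀ ℕ))))
        = {p : ℝ × ℝ | 0 ≤ p.2 ∧ p.2 ≤ ((b * n / a : ℕ) : ℝ) ∧ 0 ≤ p.1 ∧
            p.1 ≤ ((b * m / a : ℕ) : ℝ) + ((b * n / a : ℕ) : ℝ) - p.2})
    {c : ℂ} (hc0 : c ≠ 0)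
    (hc : pderiv 0 F * pderiv 1 G - pderiv 1 F * pderiv 0 G = C c)
    (L H : Fin 2 → P2) (hL : Keller L) (hH : Keller H) :
    Keller (KL.comp L (KL.comp ![F, G] H)) ∧
      ¬ ∃ G' : Fin 2 → P2, ∀ i, aeval (KL.comp L (KL.comp ![F, G] H)) (G' i) = X i := by
  have hT : Keller ![F, G] := ⟨c, hc0, by simpa using hc⟩
  refine ⟨hL.comp (hT.comp hH), fun h => ?_⟩
  exact Pool.Agent.R470.Keller.tz_not_good a b m n hm hn ham han hab ha hb F G h1 h4 hc0 hc
    (Pool.Agent.R470.Keller.good_of_inv (inner hH h))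

end Run7.h252.KL
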